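import Mathlib

/-!
# Verified interval arithmetic, evaluated by the kernel

The end points of an interval are natural numbers, in units `2^-30`, shifted by `2^36`
(`Iv.mem`, so reals in `(-64, 64)`). Only `Nat` operations with kernel support are used.
The operations are written in continuation passing style; `fN` forces a number to a literal, so
that the kernel does not evaluate it again. A failing operation returns `false`.
-/

namespace Pool.Agent.H15.IA

/-- interval -/
structure Iv where
  lo : Nat
  hi : Nat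

/-- `x` lies in the interval `a` -/
def Iv.mem (a : Iv) (x : ℝ) : Prop :=
  (a.lo : ℝ) ≤ x * 1073741824 + 68719476736 ∧ x * 1073741824 + 68719476736 ≤ a.hi

/-- force a natural number -/
@[inline] def fN (x : Nat) (k : Nat → Bool) : Bool := Nat.casesOn x (k 0) fun n => k (Nat.succ n)

theorem fN_eq (x : Nat) (k : Nat → Bool) : fN x k = k x := by
  cases x <;> rfl

/-- if then else, `Bool` valued -/
@[macro_inline] def br (c t e : Bool) : Bool := Bool.casesOn c e t

/-- if then else, `Nat` valued -/
@[macro_inline] def bn (c : Bool) (t e : Nat) : Nat := Bool.casesOn c e t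

theorem br_iff {c t e : Bool} : br c t e = true ↔ (c = true ∧ t = true) ∨ (c = false ∧ e = true) := by
  cases c <;> simp [br]

theorem bn_min (a b : Nat) : bn (Nat.ble a b) a b = min a b := by
  rcases h : Nat.ble a b with _ | _
  · have : ¬ a ≤ b := by rw [← Nat.ble_eq]; simp [h]
    simp only [bn]; omega
  · have : a ≤ b := by rw [← Nat.ble_eq]; exact h
    simp only [bn]; omega

theorem bn_max (a b : Nat) : bn (Nat.ble a b) b a = max a b := by
  rcases h : Nat.ble a b with _ | _
  · have : ¬ a ≤ b := by rw [← Nat.ble_eq]; simp [h]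
    simp only [bn]; omega
  · have : a ≤ b := by rw [← Nat.ble_eq]; exact h
    simp only [bn]; omega

theorem ble_true {a b : Nat} (h : Nat.ble a b = true) : a ≤ b := by rwa [Nat.ble_eq] at h

theorem ble_false {a b : Nat} (h : Nat.ble a b = false) : b < a := by
  by_contra hc
  have : a ≤ b := by omega
  rw [← Nat.ble_eq] at this
  simp [this] at h

/-! ### operations -/

def addK (a b : Iv) (k : Iv → Bool) : Bool :=
  fN (Nat.add a.lo b.lo) fun s => br (Nat.ble 68719476736 s)
    (fN (Nat.sub s 68719476736) fun l => fN (Nat.sub (Nat.add a.hi b.hi) 68719476736) fun h =>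
      k (Iv.mk l h)) false

def subK (a b : Iv) (k : Iv → Bool) : Bool :=
  fN (Nat.add a.lo 68719476736) fun s => br (Nat.ble b.hi s)
    (fN (Nat.sub s b.hi) fun l => fN (Nat.sub (Nat.add a.hi 68719476736) b.lo) fun h =>
      k (Iv.mk l h)) false

def negK (a : Iv) (k : Iv → Bool) : Bool :=
  br (Nat.ble a.hi 137438953472)
    (fN (Nat.sub 137438953472 a.hi) fun l => fN (Nat.sub 137438953472 a.lo) fun h =>
      k (Iv.mk l h)) false

/-- numerator of a product: `X Y + (2^72 + 2^66) - 2^36 (X + Y)` -/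
def pr (X Y : Nat) : Nat :=
  Nat.sub (Nat.add (Nat.mul X Y) 4796153459164483420160) (Nat.mul 68719476736 (Nat.add X Y))

/-- product, general signs -/
def mul4 (a b : Iv) (k : Iv → Bool) : Bool :=
  fN (pr a.lo b.lo) fun p => fN (pr a.lo b.hi) fun q => fN (pr a.hi b.lo) fun r =>
  fN (pr a.hi b.hi) fun s =>
  fN (bn (Nat.ble p q) p q) fun p1 => fN (bn (Nat.ble r s) r s) fun p2 =>
  fN (bn (Nat.ble p q) q p) fun q1 => fN (bn (Nat.ble r s) s r) fun q2 =>
  fN (bn (Nat.ble p1 p2) p1 p2) fun m => br (Nat.ble 1 m)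
    (fN (Nat.div m 1073741824) fun l =>
      fN (Nat.succ (Nat.div (bn (Nat.ble q1 q2) q2 q1) 1073741824)) fun h => k (Iv.mk l h)) false

def mulK (a b : Iv) (k : Iv → Bool) : Bool :=
  br (Nat.ble 68719476736 a.lo) (br (Nat.ble 68719476736 b.lo)
    (fN (Nat.div (pr a.lo b.lo) 1073741824) fun l =>
      fN (Nat.succ (Nat.div (pr a.hi b.hi) 1073741824)) fun h => k (Iv.mk l h))
    (mul4 a b k)) (mul4 a b k)

/-- square -/
def sqK (a : Iv) (k : Iv → Bool) : Bool :=
  br (Nat.ble 68719476736 a.lo)
    (fN (Nat.div (pr a.lo a.lo) 1073741824) fun l =>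
      fN (Nat.succ (Nat.div (pr a.hi a.hi) 1073741824)) fun h => k (Iv.mk l h))
    (br (Nat.ble a.hi 68719476736)
      (fN (Nat.div (pr a.hi a.hi) 1073741824) fun l =>
        fN (Nat.succ (Nat.div (pr a.lo a.lo) 1073741824)) fun h => k (Iv.mk l h))
      (fN (pr a.lo a.lo) fun p => fN (pr a.hi a.hi) fun q =>
        fN (Nat.succ (Nat.div (bn (Nat.ble p q) q p) 1073741824)) fun h =>
          k (Iv.mk 68719476736 h)))

/-- reciprocal of an interval without zero -/
def invK (a : Iv) (k : Iv → Bool) : Bool :=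
  br (Nat.ble 68719476737 a.lo)
    (fN (Nat.add (Nat.div 1152921504606846976 (Nat.sub a.hi 68719476736)) 68719476736) fun l =>
      fN (Nat.add (Nat.div 1152921504606846976 (Nat.sub a.lo 68719476736)) 68719476737) fun h =>
        k (Iv.mk l h))
    (br (Nat.ble a.hi 68719476735)
      (fN (Nat.succ (Nat.div 1152921504606846976 (Nat.sub 68719476736 a.hi))) fun m =>
        br (Nat.ble m 68719476736)
          (fN (Nat.sub 68719476736 m) fun l =>
            fN (Nat.sub 68719476736 (Nat.div 1152921504606846976 (Nat.sub 68719476736 a.lo)))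
              fun h => k (Iv.mk l h)) false) false)

theorem sub_cast {a b : Nat} (h : b ≤ a) : ((Nat.sub a b : Nat) : ℝ) = (a : ℝ) - b := by
  rw [show Nat.sub a b = a - b from rfl, Nat.cast_sub h]

theorem sub_cast_ge (a b : Nat) : (a : ℝ) - b ≤ ((Nat.sub a b : Nat) : ℝ) := by
  rcases le_total b a with h | h
  · rw [sub_cast h]
  · have h1 : (a : ℝ) ≤ b := by exact_mod_cast h
    have h2 : (0 : ℝ) ≤ ((Nat.sub a b : Nat) : ℝ) := Nat.cast_nonneg _
    linarith

theorem add_cast (a b : Nat) : ((Nat.add a b : Nat) : ℝ) = (a : ℝ) + b := by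
  rw [show Nat.add a b = a + b from rfl, Nat.cast_add]

theorem mul_cast (a b : Nat) : ((Nat.mul a b : Nat) : ℝ) = (a : ℝ) * b := by
  rw [show Nat.mul a b = a * b from rfl, Nat.cast_mul]

theorem succ_cast (a : Nat) : ((Nat.succ a : Nat) : ℝ) = (a : ℝ) + 1 := by
  rw [Nat.cast_succ]

theorem div_cast_le (a : Nat) {b : Nat} (_ : 0 < b) : ((Nat.div a b : Nat) : ℝ) ≤ (a : ℝ) / b := by
  rw [show Nat.div a b = a / b from rfl]
  exact Nat.cast_div_le

theorem le_div_cast (a : Nat) {b : Nat} (hb : 0 < b) :
    (a : ℝ) / b ≤ ((Nat.div a b : Nat) : ℝ) + 1 := by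
  rw [show Nat.div a b = a / b from rfl]
  have h : a < (a / b + 1) * b := by
    have := Nat.lt_div_mul_add hb (a := a)
    nlinarith
  have h1 : (a : ℝ) ≤ (((a / b : Nat) : ℝ) + 1) * b := by exact_mod_cast h.le
  have hb' : (0 : ℝ) < b := by exact_mod_cast hb
  rw [div_le_iff₀ hb']
  exact h1

theorem br_f {c t : Bool} (h : br c t false = true) : c = true ∧ t = true := by
  cases c <;> simp_all [br]

theorem addK_sound {a b : Iv} {k : Iv → Bool} {x y : ℝ} (ha : a.mem x) (hb : b.mem y)
    (h : addK a b k = true) : ∃ c : Iv, c.mem (x + y) ∧ k c = true := by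
  unfold addK at h
  simp only [fN_eq] at h
  obtain ⟨h0, h⟩ := br_f h
  obtain ⟨h1, h2⟩ := ha
  obtain ⟨h3, h4⟩ := hb
  have h5 := sub_cast (ble_true h0)
  have h6 := sub_cast_ge (Nat.add a.hi b.hi) 68719476736
  rw [add_cast] at h5 h6
  push_cast at h5 h6
  refine ⟨_, ⟨?_, ?_⟩, h⟩
  · dsimp only
    rw [h5]
    linarith
  · dsimp only
    linarith

theorem subK_sound {a b : Iv} {k : Iv → Bool} {x y : ℝ} (ha : a.mem x) (hb : b.mem y)
    (h : subK a b k = true) : ∃ c : Iv, c.mem (x - y) ∧ k c = true := by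
  unfold subK at h
  simp only [fN_eq] at h
  obtain ⟨h0, h⟩ := br_f h
  obtain ⟨h1, h2⟩ := ha
  obtain ⟨h3, h4⟩ := hb
  have h5 := sub_cast (ble_true h0)
  have h6 := sub_cast_ge (Nat.add a.hi 68719476736) b.lo
  rw [add_cast] at h5 h6
  push_cast at h5 h6
  refine ⟨_, ⟨?_, ?_⟩, h⟩
  · dsimp only
    rw [h5]
    linarith
  · dsimp only
    linarith

theorem negK_sound {a : Iv} {k : Iv → Bool} {x : ℝ} (ha : a.mem x)
    (h : negK a k = true) : ∃ c : Iv, c.mem (-x) ∧ k c = true := by
  unfold negK at h
  simp only [fN_eq] at h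
  obtain ⟨h0, h⟩ := br_f h
  obtain ⟨h1, h2⟩ := ha
  have h4 := sub_cast (ble_true h0)
  have h5 := sub_cast_ge 137438953472 a.lo
  push_cast at h4 h5
  refine ⟨_, ⟨?_, ?_⟩, h⟩
  · dsimp only
    rw [h4]
    linarith
  · dsimp only
    linarith

/-- `pr` is an upper bound, and exact if positive -/
theorem pr_ge (X Y : Nat) : ((X : ℝ) - 68719476736) * (Y - 68719476736) + 73786976294838206464 ≤
    (pr X Y : ℝ) := by
  unfold pr
  have h := sub_cast_ge (Nat.add (Nat.mul X Y) 4796153459164483420160)
    (Nat.mul 68719476736 (Nat.add X Y))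
  rw [add_cast, mul_cast, mul_cast, add_cast] at h
  push_cast at h
  refine le_trans (le_of_eq ?_) h
  ring

theorem pr_eq {X Y : Nat} (h0 : 1 ≤ pr X Y) :
    ((X : ℝ) - 68719476736) * (Y - 68719476736) + 73786976294838206464 = (pr X Y : ℝ) := by
  unfold pr at h0 ⊢
  have h1 : Nat.mul 68719476736 (Nat.add X Y) ≤ Nat.add (Nat.mul X Y) 4796153459164483420160 := by
    rw [show ∀ a b, Nat.sub a b = a - b from fun _ _ => rfl] at h0
    omega
  rw [sub_cast h1, add_cast, mul_cast, mul_cast, add_cast]
  push_cast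
  ring

/-- if the numerators are bounds, the quotients are -/
theorem mem_of_pr {l h : Nat} {z : ℝ}
    (h1 : (l : ℝ) ≤ z * 1152921504606846976 + 73786976294838206464)
    (h2 : z * 1152921504606846976 + 73786976294838206464 ≤ h) :
    Iv.mem ⟨Nat.div l 1073741824, Nat.succ (Nat.div h 1073741824)⟩ z := by
  have h3 := div_cast_le l (b := 1073741824) (by norm_num)
  have h4 := le_div_cast h (b := 1073741824) (by norm_num)
  push_cast at h3 h4
  constructor
  · show ((Nat.div l 1073741824 : Nat) : ℝ) ≤ _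
    have h5 : (l : ℝ) / 1073741824 ≤ z * 1073741824 + 68719476736 := by
      rw [div_le_iff₀ (by norm_num)]; linarith
    linarith
  · show _ ≤ ((Nat.succ (Nat.div h 1073741824) : Nat) : ℝ)
    rw [succ_cast]
    have h5 : z * 1073741824 + 68719476736 ≤ (h : ℝ) / 1073741824 := by
      rw [le_div_iff₀ (by norm_num)]; linarith
    linarith

theorem mul4_sound {a b : Iv} {k : Iv → Bool} {x y : ℝ} (ha : a.mem x) (hb : b.mem y)
    (h : mul4 a b k = true) : ∃ c : Iv, c.mem (x * y) ∧ k c = true := by
  unfold mul4 at h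
  simp only [fN_eq, bn_min, bn_max] at h
  obtain ⟨h0, h⟩ := br_f h
  have h0' := ble_true h0
  have e1 := pr_eq (X := a.lo) (Y := b.lo) (by omega)
  have e2 := pr_eq (X := a.lo) (Y := b.hi) (by omega)
  have e3 := pr_eq (X := a.hi) (Y := b.lo) (by omega)
  have e4 := pr_eq (X := a.hi) (Y := b.hi) (by omega)
  refine ⟨_, mem_of_pr ?_ ?_, h⟩
  all_goals
    obtain ⟨h1, h2⟩ := ha
    obtain ⟨h3, h4⟩ := hb
    set X := x * 1073741824 with hX
    set Y := y * 1073741824 with hY
    have e : x * y * 1152921504606846976 = X * Y := by rw [hX, hY]; ring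
    rw [e]
    push_cast
    rw [← e1, ← e2, ← e3, ← e4]
  · rcases le_total 0 X with hx | hx
    · rcases le_total 0 ((b.lo : ℝ) - 68719476736) with hb | hb
      · exact le_trans (min_le_left _ _) (le_trans (min_le_left _ _) (by nlinarith))
      · exact le_trans (min_le_right _ _) (le_trans (min_le_left _ _) (by nlinarith))
    · rcases le_total 0 ((b.hi : ℝ) - 68719476736) with hb | hb
      · exact le_trans (min_le_left _ _) (le_trans (min_le_right _ _) (by nlinarith))
      · exact le_trans (min_le_right _ _) (le_trans (min_le_right _ _) (by nlinarith))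
  · rcases le_total 0 X with hx | hx
    · rcases le_total 0 ((b.hi : ℝ) - 68719476736) with hb | hb
      · exact le_trans (le_trans (by nlinarith) (le_max_right _ _)) (le_max_right _ _)
      · exact le_trans (le_trans (by nlinarith) (le_max_right _ _)) (le_max_left _ _)
    · rcases le_total 0 ((b.lo : ℝ) - 68719476736) with hb | hb
      · exact le_trans (le_trans (by nlinarith) (le_max_left _ _)) (le_max_right _ _)
      · exact le_trans (le_trans (by nlinarith) (le_max_left _ _)) (le_max_left _ _)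

theorem pr_pos {X Y : Nat} (hX : 68719476736 ≤ X) (hY : 68719476736 ≤ Y) : 1 ≤ pr X Y := by
  have h := pr_ge X Y
  have h1 : (68719476736 : ℝ) ≤ X := by exact_mod_cast hX
  have h2 : (68719476736 : ℝ) ≤ Y := by exact_mod_cast hY
  have h3 : (1 : ℝ) ≤ (pr X Y : ℝ) := by nlinarith
  exact_mod_cast h3

theorem pr_pos' {X Y : Nat} (hX : X ≤ 68719476736) (hY : Y ≤ 68719476736) : 1 ≤ pr X Y := by
  have h := pr_ge X Y
  have h1 : (X : ℝ) ≤ 68719476736 := by exact_mod_cast hX
  have h2 : (Y : ℝ) ≤ 68719476736 := by exact_mod_cast hY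
  have h3 : (1 : ℝ) ≤ (pr X Y : ℝ) := by nlinarith
  exact_mod_cast h3

theorem mulK_sound {a b : Iv} {k : Iv → Bool} {x y : ℝ} (ha : a.mem x) (hb : b.mem y)
    (h : mulK a b k = true) : ∃ c : Iv, c.mem (x * y) ∧ k c = true := by
  unfold mulK at h
  rcases br_iff.1 h with ⟨hc, h⟩ | ⟨_, h⟩
  · rcases br_iff.1 h with ⟨hd, h⟩ | ⟨_, h⟩
    · simp only [fN_eq] at h
      have hc' := ble_true hc
      have hd' := ble_true hd
      have h5 : (68719476736 : ℝ) ≤ a.lo := by exact_mod_cast hc'
      have h6 : (68719476736 : ℝ) ≤ b.lo := by exact_mod_cast hd'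
      have e1 := pr_eq (pr_pos hc' hd')
      have e2 := pr_ge a.hi b.hi
      obtain ⟨h1, h2⟩ := ha
      obtain ⟨h3, h4⟩ := hb
      have e : x * y * 1152921504606846976 = (x * 1073741824) * (y * 1073741824) := by ring
      refine ⟨_, mem_of_pr ?_ ?_, h⟩
      · rw [e, ← e1]
        have := mul_le_mul (show (a.lo : ℝ) - 68719476736 ≤ x * 1073741824 by linarith)
          (show (b.lo : ℝ) - 68719476736 ≤ y * 1073741824 by linarith) (by linarith) (by linarith)
        linarith
      · rw [e]
        refine le_trans ?_ e2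
        have := mul_le_mul (show x * 1073741824 ≤ (a.hi : ℝ) - 68719476736 by linarith)
          (show y * 1073741824 ≤ (b.hi : ℝ) - 68719476736 by linarith) (by linarith) (by linarith)
        linarith
    · exact mul4_sound ha hb h
  · exact mul4_sound ha hb h

theorem sqK_sound {a : Iv} {k : Iv → Bool} {x : ℝ} (ha : a.mem x)
    (h : sqK a k = true) : ∃ c : Iv, c.mem (x ^ 2) ∧ k c = true := by
  obtain ⟨h1, h2⟩ := ha
  have e : x ^ 2 * 1152921504606846976 = (x * 1073741824) * (x * 1073741824) := by ring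
  unfold sqK at h
  rcases br_iff.1 h with ⟨hc, h⟩ | ⟨_, h⟩
  · simp only [fN_eq] at h
    have hc' := ble_true hc
    have h5 : (68719476736 : ℝ) ≤ a.lo := by exact_mod_cast hc'
    have e1 := pr_eq (pr_pos hc' hc')
    have e2 := pr_ge a.hi a.hi
    refine ⟨_, mem_of_pr ?_ ?_, h⟩
    · rw [e, ← e1]
      nlinarith
    · rw [e]
      refine le_trans ?_ e2
      nlinarith
  · rcases br_iff.1 h with ⟨hd, h⟩ | ⟨_, h⟩
    · simp only [fN_eq] at h
      have hd' := ble_true hd
      have h5 : (a.hi : ℝ) ≤ 68719476736 := by exact_mod_cast hd'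
      have e1 := pr_eq (pr_pos' hd' hd')
      have e2 := pr_ge a.lo a.lo
      refine ⟨_, mem_of_pr ?_ ?_, h⟩
      · rw [e, ← e1]
        nlinarith
      · rw [e]
        refine le_trans ?_ e2
        nlinarith
    · simp only [fN_eq, bn_max] at h
      have e1 := pr_ge a.lo a.lo
      have e2 := pr_ge a.hi a.hi
      refine ⟨_, ?_, h⟩
      have h3 : x ^ 2 * 1152921504606846976 + 73786976294838206464 ≤
          ((max (pr a.lo a.lo) (pr a.hi a.hi) : Nat) : ℝ) := by
        rw [e]
        push_cast
        rcases le_total 0 (x * 1073741824) with hx | hx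
        · exact le_trans (le_trans (by nlinarith) e2) (le_max_right _ _)
        · exact le_trans (le_trans (by nlinarith) e1) (le_max_left _ _)
      have h4 := (mem_of_pr (l := 0) (z := x ^ 2) (by push_cast; positivity) h3).2
      constructor
      · show ((68719476736 : Nat) : ℝ) ≤ _
        push_cast
        nlinarith [sq_nonneg x]
      · exact h4

theorem inv_bounds {l h : Nat} (hl : 1 ≤ l) {x : ℝ} (h1 : (l : ℝ) ≤ x * 1073741824)
    (h2 : x * 1073741824 ≤ h) :
    ((Nat.div 1152921504606846976 h : Nat) : ℝ) ≤ x⁻¹ * 1073741824 ∧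
    x⁻¹ * 1073741824 ≤ ((Nat.div 1152921504606846976 l : Nat) : ℝ) + 1 := by
  have h3 : (1 : ℝ) ≤ l := by exact_mod_cast hl
  have hx : 0 < x := by
    by_contra hx
    push Not at hx
    nlinarith
  have h4 : (0 : ℝ) < h := by nlinarith
  have h5 : 0 < h := by exact_mod_cast h4
  have h7 := div_cast_le 1152921504606846976 h5
  have h8 := le_div_cast 1152921504606846976 (show 0 < l by omega)
  push_cast at h7 h8
  have e : x⁻¹ * 1073741824 = 1152921504606846976 / (x * 1073741824) := by
    field_simp
    norm_num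
  rw [e]
  have hxp : 0 < x * 1073741824 := by positivity
  constructor
  · refine le_trans h7 ?_
    exact div_le_div_of_nonneg_left (by norm_num) hxp h2
  · refine le_trans ?_ h8
    exact div_le_div_of_nonneg_left (by norm_num) (by linarith) h1

theorem invK_sound {a : Iv} {k : Iv → Bool} {x : ℝ} (ha : a.mem x)
    (h : invK a k = true) : ∃ c : Iv, c.mem (x⁻¹) ∧ k c = true ∧ x ≠ 0 := by
  obtain ⟨h1, h2⟩ := ha
  unfold invK at h
  rcases br_iff.1 h with ⟨hc, h⟩ | ⟨_, h⟩
  · simp only [fN_eq] at h
    have hc' := ble_true hc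
    have hr : (68719476737 : ℝ) ≤ a.lo := by exact_mod_cast hc'
    have hh : 68719476736 ≤ a.hi := by
      have : (68719476736 : ℝ) ≤ a.hi := by linarith
      exact_mod_cast this
    have e1 := sub_cast (a := a.lo) (b := 68719476736) (by omega)
    have e2 := sub_cast hh
    push_cast at e1 e2
    obtain ⟨h3, h4⟩ := inv_bounds (l := Nat.sub a.lo 68719476736)
      (h := Nat.sub a.hi 68719476736) (x := x)
      (by rw [show ∀ a b, Nat.sub a b = a - b from fun _ _ => rfl]; omega)
      (by rw [e1]; linarith) (by rw [e2]; linarith)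
    refine ⟨_, ?_, h, ?_⟩
    · constructor
      · show ((Nat.add (Nat.div 1152921504606846976 (Nat.sub a.hi 68719476736)) 68719476736 :
          Nat) : ℝ) ≤ _
        rw [add_cast]
        push_cast
        linarith
      · show _ ≤ ((Nat.add (Nat.div 1152921504606846976 (Nat.sub a.lo 68719476736)) 68719476737 :
          Nat) : ℝ)
        rw [add_cast]
        push_cast
        linarith
    · rintro rfl
      linarith
  · obtain ⟨hd, h⟩ := br_f h
    simp only [fN_eq] at h
    obtain ⟨he, h⟩ := br_f h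
    have hd' := ble_true hd
    have he' := ble_true he
    have hr : (a.hi : ℝ) ≤ 68719476735 := by exact_mod_cast hd'
    have hh : a.lo ≤ 68719476736 := by
      have : (a.lo : ℝ) ≤ 68719476736 := by linarith
      exact_mod_cast this
    have e1 := sub_cast (a := 68719476736) (b := a.hi) (by omega)
    have e2 := sub_cast hh
    push_cast at e1 e2
    obtain ⟨h3, h4⟩ := inv_bounds (l := Nat.sub 68719476736 a.hi)
      (h := Nat.sub 68719476736 a.lo) (x := -x)
      (by rw [show ∀ a b, Nat.sub a b = a - b from fun _ _ => rfl]; omega)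
      (by rw [e1]; linarith) (by rw [e2]; linarith)
    rw [inv_neg] at h3 h4
    refine ⟨_, ?_, h, ?_⟩
    · constructor
      · show ((Nat.sub 68719476736 (Nat.succ (Nat.div 1152921504606846976
          (Nat.sub 68719476736 a.hi))) : Nat) : ℝ) ≤ _
        rw [sub_cast he', succ_cast]
        push_cast
        linarith
      · show _ ≤ ((Nat.sub 68719476736 (Nat.div 1152921504606846976 (Nat.sub 68719476736 a.lo)) :
          Nat) : ℝ)
        have h9 := sub_cast_ge 68719476736 (Nat.div 1152921504606846976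
          (Nat.sub 68719476736 a.lo))
        push_cast at h9
        linarith
    · rintro rfl
      linarith

end Pool.Agent.H15.IA
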