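import Pool.Agent.H15.IA.Trig

/-!
# Programs, boxes, bisection

A program is a term `P V` (parametric higher order syntax), usually a polymorphic definition
`prog {V : Type} (x y : V) : P V`. `sem` is its real value (a list), `ex` its interval version,
`Rel` the relation between two instances of a program (proved by repeated use of the constructors).
`check2`: if `bis` returns `true` (proved by `decide +kernel`) then on the whole box the first
output is `> 0` or one of the other outputs (side conditions) is `< 0`.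
-/

namespace Pool.Agent.H15.IA

/-- unary operations -/
inductive F1 where
  | neg | sq | inv | sin | cos | sqrt

/-- binary operations -/
inductive F2 where
  | add | sub | mul | div

/-- programs; `c n d` is the constant `n / d` -/
inductive P (V : Type) where
  | ret (xs : List V)
  | c (n d : Nat) (k : V → P V)
  | pi (k : V → P V)
  | u (f : F1) (x : V) (k : V → P V)
  | b (f : F2) (x y : V) (k : V → P V)

noncomputable def F1.ev : F1 → ℝ → ℝ
  | .neg, x => -x
  | .sq, x => x ^ 2
  | .inv, x => x⁻¹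
  | .sin, x => Real.sin x
  | .cos, x => Real.cos x
  | .sqrt, x => √x

noncomputable def F2.ev : F2 → ℝ → ℝ → ℝ
  | .add, x, y => x + y
  | .sub, x, y => x - y
  | .mul, x, y => x * y
  | .div, x, y => x / y

/-- real value of a program -/
noncomputable def sem : P ℝ → List ℝ
  | .ret xs => xs
  | .c n d k => sem (k ((n : ℝ) / (d : ℝ)))
  | .pi k => sem (k Real.pi)
  | .u f x k => sem (k (f.ev x))
  | .b f x y k => sem (k (f.ev x y))

/-- constant -/
def cK (n d : Nat) (k : Iv → Bool) : Bool :=
  br (Nat.ble 1 d)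
    (fN (Nat.div (Nat.mul n 1073741824) d) fun q => fN (Nat.add q 68719476736) fun l =>
      fN (Nat.add q 68719476737) fun h => k (Iv.mk l h)) false

def u1K (f : F1) (a : Iv) (k : Iv → Bool) : Bool :=
  match f with
  | .neg => negK a k
  | .sq => sqK a k
  | .inv => invK a k
  | .sin => sinK a k
  | .cos => cosK a k
  | .sqrt => sqrtK a k

def b2K (f : F2) (a b : Iv) (k : Iv → Bool) : Bool :=
  match f with
  | .add => addK a b k
  | .sub => subK a b k
  | .mul => mulK a b k
  | .div => invK b fun c => mulK a c k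

/-- interval value of a program -/
def ex (K : List Iv → Bool) : P Iv → Bool
  | .ret xs => K xs
  | .c n d k => cK n d fun v => ex K (k v)
  | .pi k => ex K (k piI)
  | .u f x k => u1K f x fun v => ex K (k v)
  | .b f x y k => b2K f x y fun v => ex K (k v)

/-- two instances of a program -/
inductive Rel {V W : Type} (R : V → W → Prop) : P V → P W → Prop
  | ret {xs ys} : List.Forall₂ R xs ys → Rel R (.ret xs) (.ret ys)
  | c {n d k l} : (∀ v w, R v w → Rel R (k v) (l w)) → Rel R (.c n d k) (.c n d l)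
  | pi {k l} : (∀ v w, R v w → Rel R (k v) (l w)) → Rel R (.pi k) (.pi l)
  | u {f x y k l} : R x y → (∀ v w, R v w → Rel R (k v) (l w)) → Rel R (.u f x k) (.u f y l)
  | b {f x x' y y' k l} : R x x' → R y y' → (∀ v w, R v w → Rel R (k v) (l w)) →
      Rel R (.b f x y k) (.b f x' y' l)

theorem mem_shift {q r : Nat} {z : ℝ} (h1 : (q : ℝ) ≤ z * 1073741824)
    (h2 : z * 1073741824 ≤ (r : ℝ) + 1) :
    Iv.mem ⟨Nat.add q 68719476736, Nat.add r 68719476737⟩ z := by
  have h3 := add_cast q 68719476736
  have h4 := add_cast r 68719476737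
  rw [Nat.cast_ofNat] at h3 h4
  refine ⟨?_, ?_⟩
  · dsimp only
    rw [h3]
    linarith
  · dsimp only
    rw [h4]
    linarith

theorem div_bounds (n : Nat) {d : Nat} (hd : 0 < d) :
    ((Nat.div (Nat.mul n 1073741824) d : Nat) : ℝ) ≤ (n : ℝ) / d * 1073741824 ∧
    (n : ℝ) / d * 1073741824 ≤ ((Nat.div (Nat.mul n 1073741824) d : Nat) : ℝ) + 1 := by
  have h1 := div_cast_le (Nat.mul n 1073741824) hd
  have h2 := le_div_cast (Nat.mul n 1073741824) hd
  rw [mul_cast, Nat.cast_ofNat] at h1 h2
  have e : (n : ℝ) / (d : ℝ) * 1073741824 = (n : ℝ) * 1073741824 / (d : ℝ) := by ring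
  rw [e]
  exact ⟨h1, h2⟩

theorem cK_sound {n d : Nat} {k : Iv → Bool} (h : cK n d k = true) :
    ∃ c : Iv, c.mem ((n : ℝ) / (d : ℝ)) ∧ k c = true := by
  unfold cK at h
  simp only [fN_eq] at h
  obtain ⟨h0, h⟩ := br_f h
  have hd := ble_true h0
  obtain ⟨h1, h2⟩ := div_bounds n (d := d) (by omega)
  exact ⟨_, mem_shift h1 h2, h⟩

theorem u1K_sound {f : F1} {a : Iv} {k : Iv → Bool} {x : ℝ} (ha : a.mem x)
    (h : u1K f a k = true) : ∃ c : Iv, c.mem (f.ev x) ∧ k c = true := by
  cases f with
  | neg => exact negK_sound ha h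
  | sq => exact sqK_sound ha h
  | inv =>
    obtain ⟨c, h1, h2, -⟩ := invK_sound ha h
    exact ⟨c, h1, h2⟩
  | sin => exact sinK_sound ha h
  | cos => exact cosK_sound ha h
  | sqrt =>
    obtain ⟨c, h1, h2, -⟩ := sqrtK_sound ha h
    exact ⟨c, h1, h2⟩

theorem b2K_sound {f : F2} {a b : Iv} {k : Iv → Bool} {x y : ℝ} (ha : a.mem x) (hb : b.mem y)
    (h : b2K f a b k = true) : ∃ c : Iv, c.mem (f.ev x y) ∧ k c = true := by
  cases f with
  | add => exact addK_sound ha hb h
  | sub => exact subK_sound ha hb h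
  | mul => exact mulK_sound ha hb h
  | div =>
    have h' : invK b (fun c => mulK a c k) = true := h
    obtain ⟨c, h1, h2, -⟩ := invK_sound hb h'
    obtain ⟨d, h3, h4⟩ := mulK_sound ha h1 h2
    exact ⟨d, by simpa [F2.ev, div_eq_mul_inv] using h3, h4⟩

/-- soundness of the interval version -/
theorem ex_sound {K : List Iv → Bool} {p : P Iv} {q : P ℝ} (r : Rel Iv.mem p q)
    (h : ex K p = true) : ∃ xs : List Iv, List.Forall₂ Iv.mem xs (sem q) ∧ K xs = true := by
  induction r with
  | ret hr => exact ⟨_, hr, h⟩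
  | c _ ih =>
    obtain ⟨v, hv, h1⟩ := cK_sound h
    exact ih _ _ hv h1
  | pi _ ih => exact ih _ _ piI_mem h
  | u hx _ ih =>
    obtain ⟨v, hv, h1⟩ := u1K_sound hx h
    exact ih _ _ hv h1
  | b hx hy _ ih =>
    obtain ⟨v, hv, h1⟩ := b2K_sound hx hy h
    exact ih _ _ hv h1

/-! ### the final test -/

/-- some element is certainly negative -/
def anyNeg : List Iv → Bool
  | [] => false
  | a :: l => br (Nat.ble a.hi 68719476735) true (anyNeg l)

/-- the first element is positive or another one is negative -/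
def posK : List Iv → Bool
  | [] => false
  | a :: l => br (Nat.ble 68719476737 a.lo) true (anyNeg l)

/-- the first element is positive or another one is negative -/
def Good : List ℝ → Prop
  | [] => False
  | x :: l => 0 < x ∨ ∃ y ∈ l, y < 0

theorem anyNeg_sound : ∀ {l : List Iv} {v : List ℝ}, List.Forall₂ Iv.mem l v →
    anyNeg l = true → ∃ y ∈ v, y < 0
  | [], _, _, h => by simp [anyNeg] at h
  | a :: l, _, .cons (b := x) (l₂ := v) h1 h2, h => by
    unfold anyNeg at h
    rcases br_iff.1 h with ⟨h3, _⟩ | ⟨_, h⟩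
    · refine ⟨x, by simp, ?_⟩
      have h4 : (a.hi : ℝ) ≤ 68719476735 := by exact_mod_cast ble_true h3
      have h5 := h1.2
      linarith
    · obtain ⟨y, hy, h4⟩ := anyNeg_sound h2 h
      exact ⟨y, by simp [hy], h4⟩

theorem posK_sound : ∀ {l : List Iv} {v : List ℝ}, List.Forall₂ Iv.mem l v →
    posK l = true → Good v
  | [], _, _, h => by simp [posK] at h
  | a :: l, _, .cons (b := x) (l₂ := v) h1 h2, h => by
    unfold posK at h
    rcases br_iff.1 h with ⟨h3, _⟩ | ⟨_, h⟩
    · left
      have h4 : (68719476737 : ℝ) ≤ a.lo := by exact_mod_cast ble_true h3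
      have h5 := h1.1
      linarith
    · right
      exact anyNeg_sound h2 h

/-! ### bisection -/

/-- index of the widest side, with weights -/
def pick (l : List Iv) (w : List Nat) (i best bw : Nat) : Nat :=
  match l, w with
  | a :: l, c :: w => bif Nat.ble bw (Nat.mul (Nat.sub a.hi a.lo) c) then
      pick l w (Nat.succ i) i (Nat.mul (Nat.sub a.hi a.lo) c) else pick l w (Nat.succ i) best bw
  | _, _ => best

/-- halve the side `i` -/
def splt (l : List Iv) (i : Nat) (k : List Iv → List Iv → Bool) : Bool :=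
  match l, i with
  | [], _ => false
  | a :: l, 0 => fN (Nat.div (Nat.add a.lo a.hi) 2) fun m =>
      k (Iv.mk a.lo m :: l) (Iv.mk m a.hi :: l)
  | a :: l, i + 1 => splt l i fun x y => k (a :: x) (a :: y)

/-- bisection -/
def bis (T : List Iv → Bool) (w : List Nat) : Nat → List Iv → Bool
  | 0, _ => false
  | f + 1, l => br (T l) true
    (fN (pick l w 0 0 0) fun i => splt l i fun x y => br (bis T w f x) (bis T w f y) false)

theorem splt_sound : ∀ {l : List Iv} {i : Nat} {v : List ℝ} (_ : List.Forall₂ Iv.mem l v)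
    {k : List Iv → List Iv → Bool} (_ : splt l i k = true),
    ∃ x y : List Iv, (List.Forall₂ Iv.mem x v ∨ List.Forall₂ Iv.mem y v) ∧ k x y = true
  | [], _, _, _, _, h => by simp [splt] at h
  | a :: l, 0, _, .cons (b := x) (l₂ := v) h1 h2, k, h => by
    simp only [splt, fN_eq] at h
    refine ⟨_, _, ?_, h⟩
    obtain ⟨h3, h4⟩ := h1
    rcases le_total (x * 1073741824 + 68719476736)
      ((Nat.div (Nat.add a.lo a.hi) 2 : Nat) : ℝ) with h5 | h5
    · exact Or.inl (.cons ⟨h3, h5⟩ h2)
    · exact Or.inr (.cons ⟨h5, h4⟩ h2)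
  | a :: l, i + 1, _, .cons (b := x) (l₂ := v) h1 h2, k, h => by
    obtain ⟨x, y, h3, h4⟩ := splt_sound (l := l) (i := i) h2 (k := fun x y => k (a :: x) (a :: y)) h
    refine ⟨_, _, ?_, h4⟩
    rcases h3 with h3 | h3
    · exact Or.inl (.cons h1 h3)
    · exact Or.inr (.cons h1 h3)

theorem bis_sound {T : List Iv → Bool} {w : List Nat} {G : List ℝ → Prop}
    (hT : ∀ l v, List.Forall₂ Iv.mem l v → T l = true → G v) :
    ∀ (f : Nat) (l : List Iv) (v : List ℝ), List.Forall₂ Iv.mem l v → bis T w f l = true → G v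
  | 0, _, _, _, h => by simp [bis] at h
  | f + 1, l, v, hl, h => by
    unfold bis at h
    rcases br_iff.1 h with ⟨h1, _⟩ | ⟨_, h⟩
    · exact hT l v hl h1
    · rw [fN_eq] at h
      obtain ⟨x, y, h1, h2⟩ := splt_sound hl h
      obtain ⟨h3, h4⟩ := br_f h2
      rcases h1 with h1 | h1
      · exact bis_sound hT f x v h1 h3
      · exact bis_sound hT f y v h1 h4

/-- number of boxes -/
def cnt (T : List Iv → Bool) (w : List Nat) : Nat → List Iv → Nat × Nat
  | 0, _ => (0, 1)
  | f + 1, l => if T l then (1, 0) else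
    let i := pick l w 0 0 0
    let a := l.getD i ⟨0, 0⟩
    let m := (a.lo + a.hi) / 2
    let r := cnt T w f (l.set i ⟨a.lo, m⟩)
    let s := cnt T w f (l.set i ⟨m, a.hi⟩)
    (r.1 + s.1, r.2 + s.2)

/-- interval `[a / d, b / d]` -/
def Iv.of (a b d : Nat) : Iv :=
  ⟨Nat.add (Nat.div (Nat.mul a 1073741824) d) 68719476736,
    Nat.add (Nat.div (Nat.mul b 1073741824) d) 68719476737⟩

theorem Iv.of_mem {a b d : Nat} (hd : 0 < d) {x : ℝ} (h1 : (a : ℝ) / d ≤ x)
    (h2 : x ≤ (b : ℝ) / d) : (Iv.of a b d).mem x := by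
  have h3 := (div_bounds a hd).1
  have h4 := (div_bounds b hd).2
  exact mem_shift (by linarith) (by linarith)

/-- the test of a program -/
def tst (p : List Iv → P Iv) (l : List Iv) : Bool := ex posK (p l)

/-- MAIN THEOREM for plain programs -/
theorem check {p : List Iv → P Iv} {q : List ℝ → P ℝ}
    (hr : ∀ l v, List.Forall₂ Iv.mem l v → Rel Iv.mem (p l) (q v)) {w : List Nat} {f : Nat}
    {l : List Iv} (h : bis (tst p) w f l = true) {v : List ℝ} (hv : List.Forall₂ Iv.mem l v) :
    Good (sem (q v)) :=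
  bis_sound (G := fun v => Good (sem (q v))) (fun l v hl ht => by
    obtain ⟨xs, h1, h2⟩ := ex_sound (hr l v hl) ht
    exact posK_sound h1 h2) f l v hv h

/-- a program of two variables as a function of a list -/
def l2 {V : Type} (p : V → V → P V) : List V → P V
  | [x, y] => p x y
  | _ => .ret []

theorem l2_rel {p : {V : Type} → V → V → P V}
    (hp : ∀ {V W : Type} (R : V → W → Prop) (a b : V) (x y : W), R a x → R b y →
      Rel R (p a b) (p x y)) (l : List Iv) (v : List ℝ) (h : List.Forall₂ Iv.mem l v) :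
    Rel Iv.mem (l2 p l) (l2 p v) := by
  rcases h with _ | ⟨h1, _ | ⟨h2, _ | ⟨h3, h4⟩⟩⟩
  · exact .ret .nil
  · exact .ret .nil
  · exact hp _ _ _ _ _ h1 h2
  · exact .ret .nil

/-- plain programs of two variables -/
theorem check2 {p : {V : Type} → V → V → P V}
    (hp : ∀ {V W : Type} (R : V → W → Prop) (a b : V) (x y : W), R a x → R b y →
      Rel R (p a b) (p x y)) {w : List Nat} {f : Nat} {X Y : Iv}
    (h : bis (tst (l2 p)) w f [X, Y] = true) {x y : ℝ} (hx : X.mem x) (hy : Y.mem y) :
    Good (sem (p x y)) :=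
  check (q := l2 p) (l2_rel hp) h (v := [x, y]) (.cons hx (.cons hy .nil))

/-- a program of one variable as a function of a list -/
def l1 {V : Type} (p : V → P V) : List V → P V
  | [x] => p x
  | _ => .ret []

/-- plain programs of one variable -/
theorem check1 {p : {V : Type} → V → P V}
    (hp : ∀ {V W : Type} (R : V → W → Prop) (a : V) (x : W), R a x → Rel R (p a) (p x))
    {w : List Nat} {f : Nat} {X : Iv} (h : bis (tst (l1 p)) w f [X] = true) {x : ℝ}
    (hx : X.mem x) : Good (sem (p x)) :=
  check (q := l1 p) (fun l v h => by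
    rcases h with _ | ⟨h1, _ | ⟨h2, h3⟩⟩
    · exact .ret .nil
    · exact hp _ _ _ h1
    · exact .ret .nil) h (v := [x]) (.cons hx .nil)

/-- a program of three variables as a function of a list -/
def l3 {V : Type} (p : V → V → V → P V) : List V → P V
  | [x, y, z] => p x y z
  | _ => .ret []

/-- plain programs of three variables -/
theorem check3 {p : {V : Type} → V → V → V → P V}
    (hp : ∀ {V W : Type} (R : V → W → Prop) (a b c : V) (x y z : W), R a x → R b y → R c z →
      Rel R (p a b c) (p x y z)) {w : List Nat} {f : Nat} {X Y Z : Iv}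
    (h : bis (tst (l3 p)) w f [X, Y, Z] = true) {x y z : ℝ} (hx : X.mem x) (hy : Y.mem y)
    (hz : Z.mem z) : Good (sem (p x y z)) :=
  check (q := l3 p) (fun l v h => by
    rcases h with _ | ⟨h1, _ | ⟨h2, _ | ⟨h3, _ | ⟨h4, h5⟩⟩⟩⟩
    · exact .ret .nil
    · exact .ret .nil
    · exact .ret .nil
    · exact hp _ _ _ _ _ _ _ h1 h2 h3
    · exact .ret .nil) h (v := [x, y, z]) (.cons hx (.cons hy (.cons hz .nil)))

end Pool.Agent.H15.IA
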