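import Pool.Agent.H15.IA.Core

/-!
# cos, sin, pi, sqrt in the interval arithmetic

`cos` of a point `n / 2^30`, `n / 2^30 ≤ 3.2`, is the Taylor polynomial of degree 20, evaluated
exactly (`cosQ`), error `< 2^-30` (`Complex.exp_bound'`).
-/

open Finset

namespace Pool.Agent.H15.IA

/-- Taylor polynomial of the cosine -/
noncomputable def Tc (x : ℝ) : ℝ :=
  1 - x ^ 2 / 2 + x ^ 4 / 24 - x ^ 6 / 720 + x ^ 8 / 40320 - x ^ 10 / 3628800 +
    x ^ 12 / 479001600 - x ^ 14 / 87178291200 + x ^ 16 / 20922789888000 -
    x ^ 18 / 6402373705728000 + x ^ 20 / 2432902008176640000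

theorem cos_taylor {x : ℝ} (hx : |x| ≤ 3.2) : |Real.cos x - Tc x| ≤ 1 / 1073741824 := by
  have h1 := Complex.exp_bound' (x := (x : ℂ) * Complex.I) (n := 22) (by
    rw [norm_mul, Complex.norm_I, mul_one, Complex.norm_real, Real.norm_eq_abs]
    norm_num
    linarith)
  have h2 : (Complex.exp (x * Complex.I) -
      ∑ m ∈ range 22, (x * Complex.I) ^ m / (m.factorial : ℂ)).re = Real.cos x - Tc x := by
    rw [Complex.sub_re, Complex.exp_ofReal_mul_I_re]
    congr 1
    have e : ∀ m : ℕ, ((x : ℂ) * Complex.I) ^ m / (m.factorial : ℂ) =
        ((x ^ m / (m.factorial : ℝ) : ℝ) : ℂ) * Complex.I ^ m := by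
      intro m
      rw [mul_pow]
      push_cast
      ring
    simp only [e]
    simp only [sum_range_succ, range_zero, sum_empty, Complex.add_re, Complex.re_ofReal_mul]
    have i2 : Complex.I ^ 2 = -1 := Complex.I_sq
    have i4 : Complex.I ^ 4 = 1 := Complex.I_pow_four
    have q : ∀ j : ℕ, Complex.I ^ (4 * j) = 1 := by intro j; rw [pow_mul, i4, one_pow]
    have q1 : ∀ j : ℕ, Complex.I ^ (4 * j + 1) = Complex.I := by
      intro j; rw [pow_add, q, one_mul, pow_one]
    have q2 : ∀ j : ℕ, Complex.I ^ (4 * j + 2) = -1 := by
      intro j; rw [pow_add, q, one_mul, i2]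
    have q3 : ∀ j : ℕ, Complex.I ^ (4 * j + 3) = -Complex.I := by
      intro j; rw [pow_add, q, one_mul]; exact Complex.I_pow_three
    rw [show Complex.I ^ 21 = Complex.I from q1 5, show Complex.I ^ 20 = 1 from q 5,
      show Complex.I ^ 19 = -Complex.I from q3 4, show Complex.I ^ 18 = -1 from q2 4,
      show Complex.I ^ 17 = Complex.I from q1 4, show Complex.I ^ 16 = 1 from q 4,
      show Complex.I ^ 15 = -Complex.I from q3 3, show Complex.I ^ 14 = -1 from q2 3,
      show Complex.I ^ 13 = Complex.I from q1 3, show Complex.I ^ 12 = 1 from q 3,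
      show Complex.I ^ 11 = -Complex.I from q3 2, show Complex.I ^ 10 = -1 from q2 2,
      show Complex.I ^ 9 = Complex.I from q1 2, show Complex.I ^ 8 = 1 from q 2,
      show Complex.I ^ 7 = -Complex.I from q3 1, show Complex.I ^ 6 = -1 from q2 1,
      show Complex.I ^ 5 = Complex.I from q1 1, show Complex.I ^ 4 = 1 from q 1,
      show Complex.I ^ 3 = -Complex.I from q3 0, show Complex.I ^ 2 = -1 from q2 0]
    simp only [Complex.neg_re, Complex.one_re, Complex.I_re, pow_one, pow_zero, Complex.zero_re]
    simp only [Tc, Nat.factorial]
    push_cast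
    ring
  rw [← h2]
  refine le_trans (Complex.abs_re_le_norm _) (le_trans h1 ?_)
  rw [norm_mul, Complex.norm_I, mul_one, Complex.norm_real, Real.norm_eq_abs]
  have h3 : |x| ^ 22 ≤ 3.2 ^ 22 := pow_le_pow_left₀ (abs_nonneg x) hx 22
  have h4 : |x| ^ 22 / (Nat.factorial 22 : ℝ) * 2 ≤ 3.2 ^ 22 / (Nat.factorial 22 : ℝ) * 2 := by
    gcongr
  refine le_trans h4 ?_
  norm_num [Nat.factorial]

/-- `floor ((Tc x + 2) 2^30)`, `y = n^2`, `z = n^4`, `x = n / 2^30` -/
def cosQ (y z : Nat) : Nat :=
  Nat.div (Nat.sub (Nat.add 20190729520981601023771672761361695962384356754258995158552067925399080308867732918206762689950414720068383966522114560369708025404021894118727064022291333451576246748062161808316234945797585633280000 (Nat.add 10095364760490800511885836380680847981192178377129497579276033962699540154433866459103381344975207360034191983261057280184854012702010947059363532011145666725788123374031080904158117472898792816640000 (Nat.mul z (Nat.add 316454513211928841590354390931761544358515469196754631671152266514479304852886874634382554952328143257156510476809153905838309164913648489855822789065687695360000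 (Nat.mul z (Nat.add 141710663837272113884191687683041028261605097622154022489812356320503919917869610973036512989368063623428468128457162752000 (Nat.mul z (Nat.add 8974011301925365543583554002317365160091938066453483756632614521689838547527270400 (Nat.mul z (Nat.add 154562631349870017701254684969398467297280 (Nat.mul z 1)))))))))))
    (Nat.mul y (Nat.add 4378166562143092022058482411188080887957324226007715930358511221198178767572671927318659721307603643906510008611377427003806371521269531704794042083876721776781721576755502776320000 (Nat.mul z (Nat.add 9149351219125760418340471244104439538424504348988828864700421758135882659287732421605076099898477804578519845628083691277812755097098125312000 (Nat.mul z (Nat.add 1365715640859852765043619478794250633943479223067273523597279639527299497565539492406274605410208972800 (Nat.mul z (Nat.add 42767659558052533547978062156089108449084876430602222646067200 (Nat.mul z 438110171750601850880)))))))))) 9402041100422665953529846277722015959389673897185826282274009625147599870743105615585466236784316003354445084241272211246987816600139203536662768582949104463484253151371219106165801615360000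

/-- the parts of `cosQ` -/
def cosU (z : Nat) : Nat := (Nat.add 10095364760490800511885836380680847981192178377129497579276033962699540154433866459103381344975207360034191983261057280184854012702010947059363532011145666725788123374031080904158117472898792816640000 (Nat.mul z (Nat.add 316454513211928841590354390931761544358515469196754631671152266514479304852886874634382554952328143257156510476809153905838309164913648489855822789065687695360000 (Nat.mul z (Nat.add 141710663837272113884191687683041028261605097622154022489812356320503919917869610973036512989368063623428468128457162752000 (Nat.mul z (Nat.add 8974011301925365543583554002317365160091938066453483756632614521689838547527270400 (Nat.mul z (Nat.add 154562631349870017701254684969398467297280 (Nat.mul z 1))))))))))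
def cosV (z : Nat) : Nat := (Nat.add 4378166562143092022058482411188080887957324226007715930358511221198178767572671927318659721307603643906510008611377427003806371521269531704794042083876721776781721576755502776320000 (Nat.mul z (Nat.add 9149351219125760418340471244104439538424504348988828864700421758135882659287732421605076099898477804578519845628083691277812755097098125312000 (Nat.mul z (Nat.add 1365715640859852765043619478794250633943479223067273523597279639527299497565539492406274605410208972800 (Nat.mul z (Nat.add 42767659558052533547978062156089108449084876430602222646067200 (Nat.mul z 438110171750601850880))))))))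

theorem cosUV (n : Nat) : (cosU (n * n * (n * n)) : ℝ) - (n * n : ℝ) * cosV (n * n * (n * n)) =
    Tc ((n : ℝ) / 1073741824) * 10095364760490800511885836380680847981192178377129497579276033962699540154433866459103381344975207360034191983261057280184854012702010947059363532011145666725788123374031080904158117472898792816640000 := by
  unfold cosU cosV Tc
  simp only [add_cast, mul_cast]
  push_cast
  ring

theorem cosQ_bd (n : Nat) (hn : (n : ℝ) / 1073741824 ≤ 3.2) :
    ((cosQ (n * n) (n * n * (n * n)) : Nat) : ℝ) ≤
      (Real.cos ((n : ℝ) / 1073741824) + 2) * 1073741824 + 1 ∧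
    (Real.cos ((n : ℝ) / 1073741824) + 2) * 1073741824 ≤
      ((cosQ (n * n) (n * n * (n * n)) : Nat) : ℝ) + 2 := by
  have hx : |(n : ℝ) / 1073741824| ≤ 3.2 := by
    rw [abs_of_nonneg (by positivity)]; exact hn
  have h1 := cos_taylor hx
  rw [abs_le] at h1
  obtain ⟨h2, h3⟩ := h1
  have h4 := cosUV n
  have e : cosQ (n * n) (n * n * (n * n)) = Nat.div (Nat.sub (Nat.add 20190729520981601023771672761361695962384356754258995158552067925399080308867732918206762689950414720068383966522114560369708025404021894118727064022291333451576246748062161808316234945797585633280000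
    (cosU (n * n * (n * n)))) (Nat.mul (n * n) (cosV (n * n * (n * n))))) 9402041100422665953529846277722015959389673897185826282274009625147599870743105615585466236784316003354445084241272211246987816600139203536662768582949104463484253151371219106165801615360000 := rfl
  have h5 := Real.neg_one_le_cos ((n : ℝ) / 1073741824)
  have h6 : Nat.mul (n * n) (cosV (n * n * (n * n))) ≤ Nat.add 20190729520981601023771672761361695962384356754258995158552067925399080308867732918206762689950414720068383966522114560369708025404021894118727064022291333451576246748062161808316234945797585633280000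
      (cosU (n * n * (n * n))) := by
    have : ((Nat.mul (n * n) (cosV (n * n * (n * n))) : Nat) : ℝ) ≤ ((Nat.add 20190729520981601023771672761361695962384356754258995158552067925399080308867732918206762689950414720068383966522114560369708025404021894118727064022291333451576246748062161808316234945797585633280000
      (cosU (n * n * (n * n))) : Nat) : ℝ) := by
      rw [mul_cast, add_cast]
      push_cast
      nlinarith
    exact_mod_cast this
  have h7 := sub_cast h6
  rw [mul_cast, add_cast] at h7
  push_cast at h7
  set M := Nat.sub (Nat.add 20190729520981601023771672761361695962384356754258995158552067925399080308867732918206762689950414720068383966522114560369708025404021894118727064022291333451576246748062161808316234945797585633280000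
      (cosU (n * n * (n * n)))) (Nat.mul (n * n) (cosV (n * n * (n * n)))) with hM
  have h8 : (M : ℝ) = (Tc ((n : ℝ) / 1073741824) + 2) * 10095364760490800511885836380680847981192178377129497579276033962699540154433866459103381344975207360034191983261057280184854012702010947059363532011145666725788123374031080904158117472898792816640000 := by
    rw [h7]
    linarith
  have h9 := div_cast_le M (b := 9402041100422665953529846277722015959389673897185826282274009625147599870743105615585466236784316003354445084241272211246987816600139203536662768582949104463484253151371219106165801615360000) (by norm_num)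
  have h10 := le_div_cast M (b := 9402041100422665953529846277722015959389673897185826282274009625147599870743105615585466236784316003354445084241272211246987816600139203536662768582949104463484253151371219106165801615360000) (by norm_num)
  rw [h8] at h9 h10
  rw [e]
  push_cast at h9 h10
  have h11 : (Tc ((n : ℝ) / 1073741824) + 2) * 10095364760490800511885836380680847981192178377129497579276033962699540154433866459103381344975207360034191983261057280184854012702010947059363532011145666725788123374031080904158117472898792816640000 / 9402041100422665953529846277722015959389673897185826282274009625147599870743105615585466236784316003354445084241272211246987816600139203536662768582949104463484253151371219106165801615360000 =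
      (Tc ((n : ℝ) / 1073741824) + 2) * 1073741824 := by
    rw [div_eq_iff (by norm_num)]
    ring
  rw [h11] at h9 h10
  constructor
  · linarith
  · linarith

/-- `cos (n / 2^30)` for `n ≤ 3.2 * 2^30` -/
def cosP (n : Nat) (k : Iv → Bool) : Bool :=
  br (Nat.ble n 3435973836)
    (fN (Nat.mul n n) fun y => fN (Nat.mul y y) fun z => fN (cosQ y z) fun v =>
      fN (Nat.add v 66571993087) fun l => fN (Nat.add v 66571993090) fun h => k (Iv.mk l h)) false

theorem cosP_sound {n : Nat} {k : Iv → Bool} (h : cosP n k = true) :
    ∃ c : Iv, c.mem (Real.cos ((n : ℝ) / 1073741824)) ∧ k c = true := by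
  unfold cosP at h
  simp only [fN_eq] at h
  obtain ⟨hn, h⟩ := br_f h
  have hn' := ble_true hn
  have hn2 : (n : ℝ) ≤ 3435973836 := by exact_mod_cast hn'
  obtain ⟨h1, h2⟩ := cosQ_bd n (by rw [div_le_iff₀ (by norm_num)]; linarith)
  have e : cosQ (Nat.mul n n) (Nat.mul (Nat.mul n n) (Nat.mul n n)) =
    cosQ (n * n) (n * n * (n * n)) := rfl
  rw [e] at h
  set v := cosQ (n * n) (n * n * (n * n))
  have h3 := add_cast v 66571993087
  have h4 := add_cast v 66571993090
  rw [Nat.cast_ofNat] at h3 h4
  refine ⟨_, ⟨?_, ?_⟩, h⟩
  · dsimp only
    rw [h3]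
    linarith
  · dsimp only
    rw [h4]
    linarith

/-- `pi` -/
@[reducible] def piI : Iv := ⟨72092736162, 72092736163⟩

/-- `pi / 2` -/
@[reducible] def hpI : Iv := ⟨70406106449, 70406106450⟩

theorem piI_mem : piI.mem Real.pi := by
  have h1 := Real.pi_gt_d20
  have h2 := Real.pi_lt_d20
  constructor
  · dsimp only
    push_cast
    linarith
  · dsimp only
    push_cast
    linarith

theorem hpI_mem : hpI.mem (Real.pi / 2) := by
  have h1 := Real.pi_gt_d20
  have h2 := Real.pi_lt_d20
  constructor
  · dsimp only
    push_cast
    linarith
  · dsimp only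
    push_cast
    linarith

/-- cosine on a subinterval of `[-pi, pi]` -/
def cosK (a : Iv) (k : Iv → Bool) : Bool :=
  br (Nat.ble a.hi 72092736162) (br (Nat.ble 65346217310 a.lo)
    (br (Nat.ble 68719476736 a.lo)
      (cosP (Nat.sub a.hi 68719476736) fun u => cosP (Nat.sub a.lo 68719476736) fun v =>
        k (Iv.mk u.lo v.hi))
      (br (Nat.ble a.hi 68719476736)
        (cosP (Nat.sub 68719476736 a.lo) fun u => cosP (Nat.sub 68719476736 a.hi) fun v =>
          k (Iv.mk u.lo v.hi))
        (cosP (Nat.sub 68719476736 a.lo) fun u => cosP (Nat.sub a.hi 68719476736) fun v =>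
          fN (bn (Nat.ble u.lo v.lo) u.lo v.lo) fun l => k (Iv.mk l 69793218560)))) false) false

theorem cosK_sound {a : Iv} {k : Iv → Bool} {x : ℝ} (ha : a.mem x)
    (h : cosK a k = true) : ∃ c : Iv, c.mem (Real.cos x) ∧ k c = true := by
  obtain ⟨h1, h2⟩ := ha
  unfold cosK at h
  have hpi := Real.pi_gt_d20
  obtain ⟨c1, h⟩ := br_f h
  obtain ⟨c2, h⟩ := br_f h
  have g1 : (a.hi : ℝ) ≤ 72092736162 := by exact_mod_cast ble_true c1
  have g2 : (65346217310 : ℝ) ≤ a.lo := by exact_mod_cast ble_true c2
  have s1 : 68719476736 ≤ a.hi → ((Nat.sub a.hi 68719476736 : Nat) : ℝ) =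
      (a.hi : ℝ) - 68719476736 := by
    intro h
    have := sub_cast h
    push_cast at this
    exact this
  have s2 : 68719476736 ≤ a.lo → ((Nat.sub a.lo 68719476736 : Nat) : ℝ) =
      (a.lo : ℝ) - 68719476736 := by
    intro h
    have := sub_cast h
    push_cast at this
    exact this
  have s3 : a.lo ≤ 68719476736 → ((Nat.sub 68719476736 a.lo : Nat) : ℝ) =
      68719476736 - (a.lo : ℝ) := by
    intro h
    have := sub_cast h
    push_cast at this
    exact this
  have s4 : a.hi ≤ 68719476736 → ((Nat.sub 68719476736 a.hi : Nat) : ℝ) =
      68719476736 - (a.hi : ℝ) := by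
    intro h
    have := sub_cast h
    push_cast at this
    exact this
  rcases br_iff.1 h with ⟨c3, h⟩ | ⟨c3, h⟩
  · have g3' := ble_true c3
    have g3 : (68719476736 : ℝ) ≤ a.lo := by exact_mod_cast g3'
    have g4 : 68719476736 ≤ a.hi := by
      have : (68719476736 : ℝ) ≤ a.hi := by linarith
      exact_mod_cast this
    obtain ⟨u, hu, h3⟩ := cosP_sound h
    obtain ⟨v, hv, h4⟩ := cosP_sound h3
    rw [s1 g4] at hu
    rw [s2 g3'] at hv
    refine ⟨_, ?_, h4⟩
    have k1 : Real.cos (((a.hi : ℝ) - 68719476736) / 1073741824) ≤ Real.cos x := by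
      apply Real.cos_le_cos_of_nonneg_of_le_pi (by linarith)
      · rw [div_le_iff₀ (by norm_num)]; linarith
      · rw [le_div_iff₀ (by norm_num)]; linarith
    have k2 : Real.cos x ≤ Real.cos (((a.lo : ℝ) - 68719476736) / 1073741824) := by
      apply Real.cos_le_cos_of_nonneg_of_le_pi
      · apply div_nonneg <;> linarith
      · linarith
      · rw [div_le_iff₀ (by norm_num)]; linarith
    constructor
    · exact le_trans hu.1 (by linarith)
    · exact le_trans (by linarith) hv.2
  · have g3' := (ble_false c3).le
    have g3 : (a.lo : ℝ) ≤ 68719476736 := by exact_mod_cast g3'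
    rcases br_iff.1 h with ⟨c4, h⟩ | ⟨c4, h⟩
    · have g4' := ble_true c4
      have g4 : (a.hi : ℝ) ≤ 68719476736 := by exact_mod_cast g4'
      obtain ⟨u, hu, h3⟩ := cosP_sound h
      obtain ⟨v, hv, h4⟩ := cosP_sound h3
      rw [s3 g3'] at hu
      rw [s4 g4'] at hv
      refine ⟨_, ?_, h4⟩
      have k1 : Real.cos ((68719476736 - (a.lo : ℝ)) / 1073741824) ≤ Real.cos x := by
        rw [← Real.cos_neg x]
        apply Real.cos_le_cos_of_nonneg_of_le_pi (by linarith)
        · rw [div_le_iff₀ (by norm_num)]; linarith
        · rw [le_div_iff₀ (by norm_num)]; linarith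
      have k2 : Real.cos x ≤ Real.cos ((68719476736 - (a.hi : ℝ)) / 1073741824) := by
        rw [← Real.cos_neg x]
        apply Real.cos_le_cos_of_nonneg_of_le_pi
        · apply div_nonneg <;> linarith
        · linarith
        · rw [div_le_iff₀ (by norm_num)]; linarith
      constructor
      · exact le_trans hu.1 (by linarith)
      · exact le_trans (by linarith) hv.2
    · have g4' := (ble_false c4).le
      have g4 : (68719476736 : ℝ) ≤ a.hi := by exact_mod_cast g4'
      obtain ⟨u, hu, h3⟩ := cosP_sound h
      obtain ⟨v, hv, h4⟩ := cosP_sound h3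
      rw [s3 g3'] at hu
      rw [s1 g4'] at hv
      rw [fN_eq, bn_min] at h4
      refine ⟨_, ⟨?_, ?_⟩, h4⟩
      · dsimp only
        push_cast
        rcases le_total 0 x with hx | hx
        · refine le_trans (min_le_right _ _) (le_trans hv.1 ?_)
          have : Real.cos (((a.hi : ℝ) - 68719476736) / 1073741824) ≤ Real.cos x := by
            apply Real.cos_le_cos_of_nonneg_of_le_pi hx
            · rw [div_le_iff₀ (by norm_num)]; linarith
            · rw [le_div_iff₀ (by norm_num)]; linarith
          linarith
        · refine le_trans (min_le_left _ _) (le_trans hu.1 ?_)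
          have : Real.cos ((68719476736 - (a.lo : ℝ)) / 1073741824) ≤ Real.cos x := by
            rw [← Real.cos_neg x]
            apply Real.cos_le_cos_of_nonneg_of_le_pi (by linarith)
            · rw [div_le_iff₀ (by norm_num)]; linarith
            · rw [le_div_iff₀ (by norm_num)]; linarith
          linarith
      · dsimp only
        push_cast
        linarith [Real.cos_le_one x]

/-- sine on an interval in `[-pi/2, 3pi/2]` -/
def sinK (a : Iv) (k : Iv → Bool) : Bool := subK hpI a fun b => cosK b k

theorem sinK_sound {a : Iv} {k : Iv → Bool} {x : ℝ} (ha : a.mem x)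
    (h : sinK a k = true) : ∃ c : Iv, c.mem (Real.sin x) ∧ k c = true := by
  obtain ⟨b, hb, h1⟩ := subK_sound hpI_mem ha h
  obtain ⟨c, hc, h2⟩ := cosK_sound hb h1
  rw [Real.cos_pi_div_two_sub] at hc
  exact ⟨c, hc, h2⟩

/-- Newton iteration for the integer square root -/
def nwt (f n g : Nat) (k : Nat → Bool) : Bool :=
  match f with
  | 0 => k g
  | f + 1 => fN (Nat.div (Nat.add g (Nat.div n g)) 2) fun g' =>
    br (Nat.ble g g') (k g) (nwt f n g' k)

theorem nwt_sound : ∀ (f n g : Nat) (k : Nat → Bool), nwt f n g k = true → ∃ g, k g = true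
  | 0, _, g, _, h => ⟨g, h⟩
  | f + 1, n, g, k, h => by
    unfold nwt at h
    rw [fN_eq] at h
    rcases br_iff.1 h with ⟨_, h⟩ | ⟨_, h⟩
    · exact ⟨g, h⟩
    · exact nwt_sound f n _ k h

/-- square root -/
def sqrtK (a : Iv) (k : Iv → Bool) : Bool :=
  br (Nat.ble 68719476736 a.lo)
    (fN (Nat.mul (Nat.sub a.lo 68719476736) 1073741824) fun p =>
      fN (Nat.mul (Nat.sub a.hi 68719476736) 1073741824) fun q =>
      nwt 40 p 8589934592 fun l => nwt 40 q 8589934592 fun h =>
      br (Nat.ble (Nat.mul l l) p) (br (Nat.ble q (Nat.mul (Nat.succ h) (Nat.succ h)))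
        (fN (Nat.add l 68719476736) fun l => fN (Nat.add h 68719476737) fun h => k (Iv.mk l h))
        false) false) false

theorem sqrt_real {x a b l m : ℝ} (h1 : a ≤ x * 1073741824 + 68719476736)
    (h2 : x * 1073741824 + 68719476736 ≤ b) (d1 : 68719476736 ≤ a)
    (d2 : l * l ≤ (a - 68719476736) * 1073741824)
    (d3 : (b - 68719476736) * 1073741824 ≤ (m + 1) * (m + 1)) (hm : 0 ≤ m) :
    0 ≤ x ∧ l + 68719476736 ≤ √x * 1073741824 + 68719476736 ∧
      √x * 1073741824 + 68719476736 ≤ m + 68719476737 := by
  have hx : 0 ≤ x := by
    by_contra hx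
    push Not at hx
    linarith
  have hs := Real.mul_self_sqrt hx
  have hs0 := Real.sqrt_nonneg x
  refine ⟨hx, ?_, ?_⟩
  · by_contra h9
    push Not at h9
    have h8 : (0 : ℝ) ≤ √x * 1073741824 := by positivity
    nlinarith
  · by_contra h9
    push Not at h9
    nlinarith

theorem sqrtK_sound {a : Iv} {k : Iv → Bool} {x : ℝ} (ha : a.mem x)
    (h : sqrtK a k = true) : ∃ c : Iv, c.mem (√x) ∧ k c = true ∧ 0 ≤ x := by
  obtain ⟨h1, h2⟩ := ha
  unfold sqrtK at h
  simp only [fN_eq] at h
  obtain ⟨c1, h⟩ := br_f h
  obtain ⟨l, h⟩ := nwt_sound _ _ _ _ h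
  obtain ⟨m, h⟩ := nwt_sound _ _ _ _ h
  obtain ⟨c2, h⟩ := br_f h
  obtain ⟨c3, h⟩ := br_f h
  have d1 := ble_true c1
  have d1' : (68719476736 : ℝ) ≤ a.lo := by exact_mod_cast d1
  have d4 : 68719476736 ≤ a.hi := by
    have : (68719476736 : ℝ) ≤ a.hi := le_trans d1' (le_trans h1 h2)
    exact_mod_cast this
  have d2 : ((Nat.mul l l : Nat) : ℝ) ≤ ((Nat.mul (Nat.sub a.lo 68719476736) 1073741824 :
    Nat) : ℝ) := Nat.cast_le.2 (ble_true c2)
  have d3 : ((Nat.mul (Nat.sub a.hi 68719476736) 1073741824 : Nat) : ℝ) ≤
    ((Nat.mul (Nat.succ m) (Nat.succ m) : Nat) : ℝ) := Nat.cast_le.2 (ble_true c3)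
  rw [mul_cast, mul_cast, sub_cast d1, Nat.cast_ofNat, Nat.cast_ofNat] at d2
  rw [mul_cast, mul_cast, sub_cast d4, succ_cast m, Nat.cast_ofNat, Nat.cast_ofNat] at d3
  have e1 := add_cast l 68719476736
  have e2 := add_cast m 68719476737
  rw [Nat.cast_ofNat] at e1 e2
  obtain ⟨f1, f2, f3⟩ := sqrt_real h1 h2 d1' d2 d3 (Nat.cast_nonneg m)
  rw [← e1] at f2
  rw [← e2] at f3
  exact ⟨_, ⟨f2, f3⟩, h, f1⟩

end Pool.Agent.H15.IA
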